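import Pool.Agent.H207.BT.Stm
import Pool.Agent.H274.HY211.TG2

/-!
# Targets everywhere, landing at a given critical point (helper137, for helper207)
-/

set_option autoImplicit false

open Topology Filter Metric Set

namespace Pool.Agent.H137.BT207

open Pool.Agent.H790R3.RB Pool.Agent.H211.HY Pool.Agent.H207.BT
open Pool.Agent.H274.HY211 (ift cho_iot IsT_mono)

/-- a point near `z` which is mapped to the critical point number `l` by an iterate, without critical points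
before -/
theorem near3 {d k : ℕ} {x₀ : CV d} {c₀ : Fin k → ℂ} {m : Fin k → ℕ} (hd : 2 ≤ d) (hN : ND x₀)
    (hC : CE x₀) (hD : LEO x₀) (hi : wr x₀ (1, 0) ≠ 0) (hf : Fac x₀ k c₀ m) (l : Fin k) (τ : Bool)
    {z : ℂ} (hz : ‖z‖ ≤ 1) {ε : ℝ} (hε : 0 < ε) :
    ∃ z' : ℂ, ‖z' - z‖ ≤ ε ∧ ∃ n : ℕ,
      (∀ i < n, wr x₀ ((hF x₀)^[i] (iot τ z')) ≠ 0) ∧
        cr ((hF x₀)^[n] (iot τ z')) (c₀ l, 1) = 0 := by
  set δ : ℝ := min (1 / 4) (ε / 8) with hδ
  have hδ0 : 0 < δ := lt_min (by norm_num) (by positivity)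
  obtain ⟨N, hNN⟩ := hD δ hδ0
  obtain ⟨p, hp, hcho, hcr⟩ := hNN N le_rfl (iot τ z) (c₀ l, 1) (iot_ne τ z) (one_ne _)
  obtain ⟨b, z', hb, hpz, hzz⟩ := cho_iot hz hδ0 (min_le_left _ _) hp hcho
  have h8 : 8 * δ ≤ ε := by have := min_le_right (1 / 4) (ε / 8); rw [← hδ] at this; linarith
  have hcr' : cr ((hF x₀)^[N] (iot τ z')) (c₀ l, 1) = 0 := by
    rw [hpz, hF_iter_smul, cr_smul_left] at hcr
    exact (mul_eq_zero.mp hcr).resolve_left (pow_ne_zero _ hb)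
  refine ⟨z', hzz.trans h8, N, fun i hi' hw => ?_, hcr'⟩
  obtain ⟨j, hj⟩ := crit_dir hd hi hf.fac (hN.iter_ne i (iot_ne τ z')) hw
  obtain ⟨a, ha, hae⟩ := (cr_eq_zero_iff (hN.iter_ne i (iot_ne τ z')) (one_ne (c₀ j))).1 hj
  have e : N = (N - i - 1 + 1) + i := by omega
  rw [e, Function.iterate_add_apply, hae, hF_iter_smul, cr_smul_left] at hcr'
  have h1 := (mul_eq_zero.mp hcr').resolve_left (pow_ne_zero _ ha)
  have h2 : wr x₀ (qo x₀ (c₀ j) (N - i - 1 + 1)) = 0 :=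
    wr_of_par hd x₀ (qo_ne hN (c₀ j) _) (one_ne (c₀ l)) h1 (hf.crit l)
  exact noncrit hC (hf.crit j) _ h2

/-- the moving point, with noncritical points before -/
theorem ift3 {d k : ℕ} {x₀ : CV d} {c₀ : Fin k → ℂ} {m : Fin k → ℕ} {X : (Fin k → ℂ) → CV d}
    {c : Fin k → (Fin k → ℂ) → ℂ} {ρ : ℝ} (hN : ND x₀)
    (hX : Fami x₀ k c₀ m X c ρ) (τ : Bool) (z : ℂ) (n : ℕ) (j : Fin k)
    (hw : ∀ i < n, wr x₀ ((hF x₀)^[i] (iot τ z)) ≠ 0)
    (h0 : cr ((hF x₀)^[n] (iot τ z)) (c₀ j, 1) = 0) :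
    ∃ q : (Fin k → ℂ) → ℂ, ∃ r > (0 : ℝ), r ≤ ρ ∧ ∃ L : ℝ, IsT q r L ∧ q 0 = z ∧
      ∀ s ∈ ball (0 : Fin k → ℂ) r, Rch (X s) (c j s, 1) (iot τ (q s)) := by
  obtain ⟨q, r, hr, hrρ, L, hq, hq0, hs⟩ := ift hN hX τ z n j hw h0
  have hmem : (0 : Fin k → ℂ) ∈ ball (0 : Fin k → ℂ) r := mem_ball_self hr
  have hqc : ContinuousAt q 0 := by
    have h1 : ∀ᶠ s in 𝓝 (0 : Fin k → ℂ), dist (q s) (q 0) ≤ L * dist s 0 := by
      filter_upwards [ball_mem_nhds (0 : Fin k → ℂ) hr] with s hs'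
      rw [dist_eq_norm, dist_eq_norm]
      exact hq s hs' 0 hmem
    have h2 : Tendsto (fun s : Fin k → ℂ => L * dist s 0) (𝓝 0) (𝓝 0) := by
      have : Tendsto (fun s : Fin k → ℂ => L * dist s 0) (𝓝 0) (𝓝 (L * dist (0 : Fin k → ℂ) 0)) :=
        (continuous_const.mul (continuous_id.dist continuous_const)).tendsto 0
      simpa using this
    exact tendsto_iff_dist_tendsto_zero.2
      (squeeze_zero' (Eventually.of_forall fun _ => dist_nonneg) h1 h2)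
  have hXc : ContinuousAt X 0 :=
    (hX.dif.differentiableAt (isOpen_ball.mem_nhds (mem_ball_self hX.ρ0))).continuousAt
  have hio : Continuous (iot τ) := by
    cases τ with
    | true =>
      have e : iot true = fun z : ℂ => (z, (1 : ℂ)) := by funext z; simp [iot]
      rw [e]; exact continuous_id.prodMk continuous_const
    | false =>
      have e : iot false = fun z : ℂ => ((1 : ℂ), z) := by funext z; simp [iot]
      rw [e]; exact continuous_const.prodMk continuous_id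
  have hall : ∀ᶠ s in 𝓝 (0 : Fin k → ℂ), ∀ i ∈ Finset.range n,
      wr (X s) ((hF (X s))^[i] (iot τ (q s))) ≠ 0 := by
    rw [Finset.eventually_all]
    intro i hin
    have h1 : ContinuousAt (fun s => (hF (X s))^[i] (iot τ (q s))) 0 :=
      ContinuousAt.comp (f := fun s : Fin k → ℂ => (X s, iot τ (q s)))
        (g := fun q : CV d × (ℂ × ℂ) => (hF q.1)^[i] q.2)
        (hF_iter_continuous d i).continuousAt (hXc.prodMk (hio.continuousAt.comp hqc))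
    have h2 : ContinuousAt (fun s => wr (X s) ((hF (X s))^[i] (iot τ (q s)))) 0 :=
      ContinuousAt.comp (f := fun s : Fin k → ℂ => (X s, (hF (X s))^[i] (iot τ (q s))))
        (g := fun q : CV d × (ℂ × ℂ) => wr q.1 q.2)
        (wr_contDiff d 1).continuous.continuousAt (hXc.prodMk h1)
    refine h2.eventually_ne ?_
    rw [hX.at0, hq0]
    exact hw i (Finset.mem_range.1 hin)
  obtain ⟨r', hr', hb⟩ := Metric.eventually_nhds_iff_ball.mp hall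
  refine ⟨q, min r r', lt_min hr hr', (min_le_left _ _).trans hrρ, L,
    IsT_mono hq (min_le_left _ _) le_rfl, hq0, fun s hs' => ⟨n, fun i hin => ?_, ?_⟩⟩
  · exact hb s (ball_subset_ball (min_le_right _ _) hs') i (Finset.mem_range.2 hin)
  · exact hs s (ball_subset_ball (min_le_left _ _) hs')

/-- a point at a given small distance, in the unit disc -/
theorem shift {z : ℂ} (hz : ‖z‖ ≤ 1) {ε : ℝ} (hε : 0 < ε) (hε1 : ε ≤ 1) :
    ∃ z' : ℂ, ‖z'‖ ≤ 1 ∧ ‖z' - z‖ = ε / 2 := by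
  by_cases h : z = 0
  · refine ⟨((ε / 2 : ℝ) : ℂ), ?_, ?_⟩
    · rw [Complex.norm_real, Real.norm_of_nonneg (by positivity)]
      linarith
    · rw [h, sub_zero, Complex.norm_real, Real.norm_of_nonneg (by positivity)]
  · have hn : 0 < ‖z‖ := norm_pos_iff.2 h
    have hn' : (‖z‖ : ℂ) ≠ 0 := by exact_mod_cast hn.ne'
    refine ⟨(((‖z‖ - ε / 2) / ‖z‖ : ℝ) : ℂ) * z, ?_, ?_⟩
    · rw [norm_mul, Complex.norm_real, Real.norm_eq_abs, abs_div, abs_of_pos hn,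
        div_mul_cancel₀ _ hn.ne', abs_le]
      constructor <;> linarith
    · have e : (((‖z‖ - ε / 2) / ‖z‖ : ℝ) : ℂ) * z - z = ((-(ε / 2) / ‖z‖ : ℝ) : ℂ) * z := by
        push_cast
        field_simp
        ring
      rw [e, norm_mul, Complex.norm_real, Real.norm_eq_abs, abs_div, abs_of_pos hn,
        div_mul_cancel₀ _ hn.ne', abs_neg, abs_of_pos (by positivity)]

theorem t_TG3 : Pool.Agent.H207.BT.S_TG3 := by
  intro d k x₀ c₀ m X c ρ hd hN hC hD hi hf hX ε hε hε1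
  -- for one chart and one critical point
  have one : ∀ i : Fin k × Bool, ∃ ρ₁ > (0 : ℝ), ρ₁ ≤ ρ ∧ ∃ L : ℝ, ∀ z ∈ closedBall (0 : ℂ) 1,
      ∃ q : (Fin k → ℂ) → ℂ, IsT q ρ₁ L ∧ ‖q 0 - z‖ ≤ ε / 4 ∧
        ∀ s ∈ ball (0 : Fin k → ℂ) ρ₁, Rch (X s) (c i.1 s, 1) (iot i.2 (q s)) := by
    rintro ⟨l, τ⟩
    refine (isCompact_closedBall (0 : ℂ) 1).induction_on
      (p := fun K => ∃ ρ₁ > (0 : ℝ), ρ₁ ≤ ρ ∧ ∃ L : ℝ, ∀ z ∈ K,
        ∃ q : (Fin k → ℂ) → ℂ, IsT q ρ₁ L ∧ ‖q 0 - z‖ ≤ ε / 4 ∧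
          ∀ s ∈ ball (0 : Fin k → ℂ) ρ₁, Rch (X s) (c l s, 1) (iot τ (q s))) ?_ ?_ ?_ ?_
    · exact ⟨ρ, hX.ρ0, le_rfl, 0, fun z hz => absurd hz (notMem_empty z)⟩
    · rintro s t hst ⟨ρ₁, h1, h2, L, h3⟩
      exact ⟨ρ₁, h1, h2, L, fun z hz => h3 z (hst hz)⟩
    · rintro s t ⟨ρ₁, h1, h2, L, h3⟩ ⟨ρ₂, g1, g2, L₂, g3⟩
      refine ⟨min ρ₁ ρ₂, lt_min h1 g1, (min_le_left _ _).trans h2, max L L₂, fun z hz => ?_⟩
      rcases hz with hz | hz
      · obtain ⟨q, hq, hqz, hs⟩ := h3 z hz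
        exact ⟨q, IsT_mono hq (min_le_left _ _) (le_max_left _ _), hqz,
          fun a ha => hs a (ball_subset_ball (min_le_left _ _) ha)⟩
      · obtain ⟨q, hq, hqz, hs⟩ := g3 z hz
        exact ⟨q, IsT_mono hq (min_le_right _ _) (le_max_right _ _), hqz,
          fun a ha => hs a (ball_subset_ball (min_le_right _ _) ha)⟩
    · intro z hz
      have hz1 : ‖z‖ ≤ 1 := by simpa using hz
      obtain ⟨z', hzz, n, hw, hc⟩ := near3 hd hN hC hD hi hf l τ hz1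
        (show (0 : ℝ) < ε / 8 by positivity)
      obtain ⟨q, r, hr, hrρ, L, hq, hq0, hs⟩ := ift3 hN hX τ z' n l hw hc
      refine ⟨ball z (ε / 8), mem_nhdsWithin_of_mem_nhds (ball_mem_nhds z (by positivity)),
        r, hr, hrρ, L, fun a ha => ⟨q, hq, ?_, hs⟩⟩
      rw [hq0]
      rw [mem_ball, dist_eq_norm] at ha
      calc ‖z' - a‖ = ‖(z' - z) - (a - z)‖ := by congr 1; ring
        _ ≤ ‖z' - z‖ + ‖a - z‖ := norm_sub_le _ _
        _ ≤ ε / 4 := by linarith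
  have hk : 0 < k := hf.kpos hd
  have : Nonempty (Fin k × Bool) := ⟨(⟨0, hk⟩, true)⟩
  choose r hr0 hrρ L hL using one
  obtain ⟨i₀, h0⟩ := Finite.exists_min r
  obtain ⟨i₁, h1⟩ := Finite.exists_max L
  refine ⟨r i₀, hr0 i₀, hrρ i₀, L i₁, fun l τ z hz => ?_⟩
  obtain ⟨z', hz', hzz⟩ := shift hz hε hε1
  obtain ⟨q, hq, hqz, hs⟩ := hL (l, τ) z' (by simpa using hz')
  refine ⟨q, IsT_mono hq (h0 _) (h1 _), ?_, ?_,
    fun s hs' => hs s (ball_subset_ball (h0 _) hs')⟩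
  · have e : ‖z' - z‖ ≤ ‖q 0 - z‖ + ‖q 0 - z'‖ := by
      calc ‖z' - z‖ = ‖(q 0 - z) - (q 0 - z')‖ := by congr 1; ring
        _ ≤ _ := norm_sub_le _ _
    linarith
  · have e : ‖q 0 - z‖ ≤ ‖q 0 - z'‖ + ‖z' - z‖ := by
      calc ‖q 0 - z‖ = ‖(q 0 - z') + (z' - z)‖ := by congr 1; ring
        _ ≤ _ := norm_add_le _ _
    linarith

end Pool.Agent.H137.BT207
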